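import Pool.Agent.H41.AUG.GStmts

set_option autoImplicit false

/-! Discharging: proof of `Pool.Agent.H41.AUG.S_DISC`. -/

namespace Pool.Agent.H93.AUG

open Pool.Agent.H41.CP (nb dg)

/-- final charge of a vertex of small degree, numerically -/
lemma num (n x : ℝ) (h1 : n + 1 ≤ 2 * x) (h2 : 5 * x ≤ 3 * n + 1) :
    ((3 * n + 2) / 5) * (n + 3 * x) ≤ n ^ 2 + 2 * x ^ 2 + 3 * n - 4 * x + 2 := by
  have hJ : 0 ≤ 2 * x - n - 1 := by linarith
  have hK : 0 ≤ n - 5 * (2 * x - n) + 2 := by linarith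
  nlinarith [mul_nonneg hJ hK, sq_nonneg (2 * x - n - 7 / 5)]

/-- the rule -/
noncomputable def fr (μ y : ℝ) : ℝ := max (y - μ) 0 / y

lemma fr_nonneg {μ y : ℝ} (hy : 0 < y) : 0 ≤ fr μ y := div_nonneg (le_max_right _ _) hy.le

lemma fr_mul {μ y : ℝ} (hy : 0 < y) : y * fr μ y = max (y - μ) 0 := by
  unfold fr
  field_simp

lemma pointwise (n x μ y : ℝ) (hy : 0 < y) (hnx : 0 < n + x) (hμ0 : 0 ≤ μ) :
    (min x (2 * y - n) - (2 * μ - n)) / (n + x) ≤ fr μ y := by
  rw [div_le_iff₀ hnx]
  by_cases hμ : y < μ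
  · have h1 : min x (2 * y - n) ≤ 2 * y - n := min_le_right _ _
    have h2 := mul_nonneg (fr_nonneg (μ := μ) hy) hnx.le
    linarith
  · push Not at hμ
    have h0 : fr μ y * y = y - μ := by
      have := fr_mul (μ := μ) hy
      rw [mul_comm, this]
      exact max_eq_left (by linarith)
    have hf := fr_nonneg (μ := μ) hy
    rcases le_total (2 * y - n) x with h | h
    · rw [min_eq_right h]
      have h3 := mul_nonneg hf (by linarith : (0 : ℝ) ≤ n + x - 2 * y)
      nlinarith
    · rw [min_eq_left h]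
      have h4 : fr μ y ≤ 1 := by
        unfold fr
        rw [div_le_one hy]
        exact max_le (by linarith) hy.le
      have h5 := mul_nonneg (by linarith : (0 : ℝ) ≤ 1 - fr μ y)
        (by linarith : (0 : ℝ) ≤ 2 * y - n - x)
      nlinarith

/-- double counting of the charges -/
lemma swap {V : Type} (G : SimpleGraph V) [DecidableRel G.Adj] (W : Finset V) (f : V → ℝ) :
    ∑ w ∈ W, ∑ u ∈ nb G W w, f u = ∑ u ∈ W, (dg G W u : ℝ) * f u := by
  rw [Finset.sum_comm' (s' := fun u => nb G W u) (t' := W)]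
  · refine Finset.sum_congr rfl fun u _ => ?_
    rw [Finset.sum_const, nsmul_eq_mul, dg]
  · intro x y
    simp only [nb, Finset.mem_filter]
    constructor
    · rintro ⟨h1, h2, h3⟩
      exact ⟨⟨h1, h3.symm⟩, h2⟩
    · rintro ⟨⟨h1, h3⟩, h2⟩
      exact ⟨h1, h2, h3.symm⟩

theorem disc : Pool.Agent.H41.AUG.S_DISC := by
  intro n V _ G _ W hn hsum
  by_contra hcon
  push Not at hcon
  obtain ⟨H1, H2⟩ := hcon
  set μ : ℝ := (3 * n + 2) / 5 with hμ
  have hμ0 : 0 < μ := by positivity
  have hpos : ∀ w ∈ W, (0 : ℝ) < dg G W w := by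
    intro w hw
    have := H1 w hw
    exact_mod_cast (by omega : 0 < dg G W w)
  have hfin : ∀ w ∈ W, μ ≤ (dg G W w : ℝ) - max ((dg G W w : ℝ) - μ) 0 +
      ∑ u ∈ nb G W w, fr μ (dg G W u) := by
    intro w hw
    have hnn : 0 ≤ ∑ u ∈ nb G W w, fr μ (dg G W u) :=
      Finset.sum_nonneg fun u hu => fr_nonneg (hpos u (Finset.mem_filter.1 hu).1)
    rcases le_or_gt μ (dg G W w : ℝ) with h | h
    · rw [max_eq_left (by linarith)]
      linarith
    · rw [max_eq_right (by linarith), sub_zero]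
      have h5 : 5 * dg G W w < 3 * n + 2 := by
        have : (5 : ℝ) * dg G W w < 3 * n + 2 := by
          rw [hμ, lt_div_iff₀ (by norm_num)] at h
          linarith
        exact_mod_cast this
      have h6 := H1 w hw
      have h7 := H2 w hw (by omega) (by omega)
      set x : ℝ := (dg G W w : ℝ) with hx
      have hx1 : (n : ℝ) + 1 ≤ 2 * x := by
        rw [hx]
        exact_mod_cast (by omega : n + 1 ≤ 2 * dg G W w)
      have hx2 : 5 * x ≤ 3 * n + 1 := by
        rw [hx]
        exact_mod_cast (by omega : 5 * dg G W w ≤ 3 * n + 1)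
      have hn0 : (0 : ℝ) ≤ n := Nat.cast_nonneg _
      have hnx : 0 < (n : ℝ) + x := by linarith
      -- the sum over the neighbours in reals
      have h8 : ((n : ℝ) - x + 1) ^ 2 + 1 - (2 * x - n) ≤
          ∑ u ∈ nb G W w, min x (2 * (dg G W u : ℝ) - n) := by
        have h9 : (((∑ u ∈ nb G W w, min (dg G W w) (2 * dg G W u - n) : ℕ) : ℤ) : ℝ) =
            ∑ u ∈ nb G W w, min x (2 * (dg G W u : ℝ) - n) := by
          push_cast
          refine Finset.sum_congr rfl fun u hu => ?_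
          have hu' := H1 u (Finset.mem_filter.1 hu).1
          rw [Nat.cast_sub (by omega)]
          push_cast
          rfl
        rw [← h9]
        have h10 : ((((n : ℤ) - dg G W w + 1) ^ 2 + 1 - (2 * dg G W w - n) : ℤ) : ℝ) ≤
            (((∑ u ∈ nb G W w, min (dg G W w) (2 * dg G W u - n) : ℕ) : ℤ) : ℝ) := by
          exact_mod_cast h7
        refine le_trans (le_of_eq ?_) h10
        push_cast
        ring
      have h11 : ∑ u ∈ nb G W w, (min x (2 * (dg G W u : ℝ) - n) - (2 * μ - n)) / (n + x) ≤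
          ∑ u ∈ nb G W w, fr μ (dg G W u) :=
        Finset.sum_le_sum fun u hu =>
          pointwise n x μ _ (hpos u (Finset.mem_filter.1 hu).1) hnx hμ0.le
      have h12 : ∑ u ∈ nb G W w, (min x (2 * (dg G W u : ℝ) - n) - (2 * μ - n)) / (n + x) =
          ((∑ u ∈ nb G W w, min x (2 * (dg G W u : ℝ) - n)) - x * (2 * μ - n)) / (n + x) := by
        rw [← Finset.sum_div, Finset.sum_sub_distrib, Finset.sum_const, nsmul_eq_mul]
        rfl
      rw [h12] at h11
      have h13 : μ - x ≤
          ((∑ u ∈ nb G W w, min x (2 * (dg G W u : ℝ) - n)) - x * (2 * μ - n)) / (n + x) := by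
        rw [le_div_iff₀ hnx]
        have := num n x hx1 hx2
        rw [← hμ] at this
        nlinarith
      linarith
  have htot := Finset.sum_le_sum hfin
  rw [Finset.sum_const, nsmul_eq_mul, Finset.sum_add_distrib, Finset.sum_sub_distrib, swap] at htot
  have h14 : ∑ u ∈ W, (dg G W u : ℝ) * fr μ (dg G W u) = ∑ w ∈ W, max ((dg G W w : ℝ) - μ) 0 :=
    Finset.sum_congr rfl fun u hu => fr_mul (hpos u hu)
  rw [h14] at htot
  have h15 : (5 : ℝ) * ∑ v ∈ W, (dg G W v : ℝ) < (3 * n + 2) * W.card := by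
    exact_mod_cast hsum
  have h16 : (W.card : ℝ) * μ = (3 * n + 2) * W.card / 5 := by
    rw [hμ]
    ring
  rw [h16] at htot
  linarith

end Pool.Agent.H93.AUG
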